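import Pool.Agent.Lib.MP_5a9905_co.ChainCheck
import Pool.Agent.Lib.MP_5a9905_co.NumOf

/-! Certificate for dimension `d = 15` (`n = 13`), generated by a script. -/

set_option autoImplicit false
set_option linter.style.longLine false

namespace Pool.Agent.Saus.N13

def ys : List ℕ := [0, 1, 4, 6, 9, 12, 16, 20, 24, 28, 32, 36, 40, 44, 48, 56, 60, 65, 70, 75, 80, 85, 90, 95]

def cs : List Cls :=
  [⟨105, 698, 8, [10000, 5856, 4880, 4445, 3924, 3501, 3035, 2650, 2323, 2043, 1801, 1590, 1404, 1241, 1097, 857, 757, 648, 554, 473, 403, 343, 291]⟩,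
   ⟨110, 677, 8, [10000, 5960, 5004, 4576, 4062, 3643, 3180, 2794, 2467, 2184, 1938, 1722, 1532, 1363, 1214, 963, 857, 741, 640, 552, 475, 409, 351]⟩,
   ⟨120, 641, 8, [10000, 6142, 5222, 4807, 4307, 3896, 3439, 3055, 2726, 2440, 2189, 1967, 1769, 1593, 1435, 1165, 1050, 922, 809, 710, 622, 545, 476]⟩,
   ⟨145, 570, 8, [10000, 6513, 5670, 5285, 4817, 4428, 3989, 3616, 3291, 3004, 2748, 2518, 2311, 2122, 1951, 1652, 1520, 1371, 1237, 1116, 1007, 909, 819]⟩,
   ⟨200, 472, 8, [10000, 7055, 6330, 5994, 5581, 5233, 4836, 4491, 4185, 3911, 3663, 3435, 3226, 3033, 2855, 2533, 2389, 2221, 2066, 1923, 1790, 1667, 1553]⟩]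

def S : List Step :=
  [Step.gs 156 [] 1063058900000000000000000000000000000000,
   Step.ts 0 253 14 [],
   Step.gs 158 [(105, 252)] 991550740000000000000000000000000000000,
   Step.ts 0 57 14 [(105, 252)],
   Step.ts 1 137 14 [(105, 56)],
   Step.gs 160 [(105, 56), (110, 136)] 813521590000000000000000000000000000000,
   Step.ts 0 22 15 [(105, 56), (110, 136)],
   Step.ts 1 31 15 [(105, 21), (110, 136)],
   Step.ts 2 124 15 [(105, 21), (110, 30)],
   Step.gs 166 [(105, 21), (110, 30), (120, 123)] 610005130000000000000000000000000000000,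
   Step.ts 0 10 15 [(105, 21), (110, 30), (120, 123)],
   Step.ts 1 12 15 [(105, 9), (110, 30), (120, 123)],
   Step.ts 2 17 15 [(105, 9), (110, 11), (120, 123)],
   Step.gs 166 [(105, 9), (110, 11), (120, 16)] 585185450000000000000000000000000000000,
   Step.ts 1 11 15 [(105, 9), (110, 11), (120, 16)],
   Step.ts 2 15 16 [(105, 9), (110, 10), (120, 16)],
   Step.ts 3 580 16 [(105, 9), (110, 10), (120, 14)],
   Step.gs 176 [(105, 9), (110, 10), (120, 14), (145, 579)] 387240600000000000000000000000000000000,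
   Step.ts 0 6 17 [(105, 9), (110, 10), (120, 14), (145, 579)],
   Step.ts 1 7 17 [(105, 5), (110, 10), (120, 14), (145, 579)],
   Step.ts 2 8 17 [(105, 5), (110, 6), (120, 14), (145, 579)],
   Step.ts 3 13 17 [(105, 5), (110, 6), (120, 7), (145, 579)],
   Step.ts 4 372 18 [(105, 5), (110, 6), (120, 7), (145, 12)],
   Step.ts 0 4 19 [(105, 5), (110, 6), (120, 7), (145, 12), (200, 371)],
   Step.ts 1 4 20 [(105, 3), (110, 6), (120, 7), (145, 12), (200, 371)],
   Step.ts 2 4 21 [(110, 3), (120, 7), (145, 12), (200, 371)],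
   Step.ts 3 5 20 [(120, 3), (145, 12), (200, 371)],
   Step.ts 4 7 22 [(120, 3), (145, 4), (200, 371)],
   Step.ts 3 4 22 [(120, 3), (145, 4), (200, 6)],
   Step.ts 4 6 23 [(145, 3), (200, 6)],
   Step.ts 0 3 23 [(145, 3), (200, 5)]]

theorem ysOK_ : ysOK 23 ys = true := by decide +kernel

theorem tabOK_ : tabOK 6 23 ys cs = true := by decide +kernel

theorem runOK_ :
    run 13 ys cs 23 (finOK 13 200 1664 1664 [(105, 2), (145, 3), (200, 5)] [(105, 2), (145, 3), (200, 5)]) S [] (2 * uU) = true := by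
  decide +kernel

theorem chain : ChainOut 13 (((200 : ℕ) : ℝ) / 100) (((1664 : ℕ) : ℝ) / 10 ^ 4) (((1664 : ℕ) : ℝ) / 10 ^ 4) :=
  chain_sound (by norm_num) ysOK_ (tab_of_check (by norm_num) tabOK_ (by norm_num)) runOK_

theorem num : NumOut 13 (((200 : ℕ) : ℝ) / 100) (((1664 : ℕ) : ℝ) / 10 ^ 4) (((1664 : ℕ) : ℝ) / 10 ^ 4) := by
  have hr : rL 14 = 6365190363 := by decide +kernel
  have h := rL_le 14
  rw [hr] at h
  refine numOut_of (ρ := ((6365190363 : ℕ) : ℝ) / 10 ^ 10) (a := 10000 / 10 ^ 4) (b := 10000 / 10 ^ 4)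
    (by norm_num) (by norm_num) (by norm_num) (by norm_num) h (by norm_num) (by norm_num)
    (by norm_num) (by norm_num) ?_ ?_ ?_ ?_ ?_ ?_ <;> norm_num

theorem out : ∃ R s s₂ : ℝ, ChainOut 13 R s s₂ ∧ NumOut 13 R s s₂ := ⟨_, _, _, chain, num⟩

end Pool.Agent.Saus.N13
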