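import Pool.Agent.Lib.MP_5a9905_co.ChainCheck
import Pool.Agent.Lib.MP_5a9905_co.NumOf

/-! Certificate for dimension `d = 16` (`n = 14`), generated by a script. -/

set_option autoImplicit false
set_option linter.style.longLine false

namespace Pool.Agent.Saus.N14

def ys : List ℕ := [0, 2, 6, 12, 20, 28, 36, 44, 52, 70, 90]

def cs : List Cls :=
  [⟨110, 169, 32, [10000, 5471, 4415, 3433, 2559, 1946, 1493, 1150, 887, 493]⟩,
   ⟨130, 152, 32, [10000, 5856, 4867, 3927, 3064, 2437, 1957, 1580, 1279, 797]⟩,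
   ⟨160, 134, 32, [10000, 6284, 5379, 4498, 3667, 3043, 2549, 2148, 1816, 1254]⟩,
   ⟨200, 118, 32, [10000, 6683, 5860, 5047, 4262, 3658, 3167, 2758, 2411, 1797]⟩]

def S : List Step :=
  [Step.gs 158 [] 807033610000000000000000000000000000000,
   Step.ts 0 144 8 [],
   Step.gs 162 [(110, 143)] 618190650000000000000000000000000000000,
   Step.ts 0 19 8 [(110, 143)],
   Step.ts 1 645 8 [(110, 18)],
   Step.ts 0 13 8 [(110, 18), (130, 644)],
   Step.ts 1 39 8 [(110, 12), (130, 644)],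
   Step.gs 172 [(110, 12), (130, 38)] 340356550000000000000000000000000000000,
   Step.ts 0 9 9 [(110, 12), (130, 38)],
   Step.ts 1 13 9 [(110, 8), (130, 38)],
   Step.ts 2 87 9 [(110, 8), (130, 12)],
   Step.ts 3 35 9 [(110, 8), (130, 12), (160, 86)],
   Step.ts 0 4 10 [(110, 8), (130, 12), (200, 34)],
   Step.ts 1 4 10 [(110, 3), (130, 12), (200, 34)],
   Step.ts 2 5 10 [(130, 3), (200, 34)]]

theorem ysOK_ : ysOK 10 ys = true := by decide +kernel

theorem tabOK_ : tabOK 7 10 ys cs = true := by decide +kernel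

theorem runOK_ :
    run 14 ys cs 10 (finOK 14 198 1510 1796 [(130, 3), (160, 4), (200, 34)] [(130, 3), (160, 4), (200, 34)]) S [] (2 * uU) = true := by
  decide +kernel

theorem chain : ChainOut 14 (((198 : ℕ) : ℝ) / 100) (((1510 : ℕ) : ℝ) / 10 ^ 4) (((1796 : ℕ) : ℝ) / 10 ^ 4) :=
  chain_sound (by norm_num) ysOK_ (tab_of_check (by norm_num) tabOK_ (by norm_num)) runOK_

theorem num : NumOut 14 (((198 : ℕ) : ℝ) / 100) (((1510 : ℕ) : ℝ) / 10 ^ 4) (((1796 : ℕ) : ℝ) / 10 ^ 4) := by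
  have hr : rL 15 = 6169477696 := by decide +kernel
  have h := rL_le 15
  rw [hr] at h
  refine numOut_of (ρ := ((6169477696 : ℕ) : ℝ) / 10 ^ 10) (a := 9899 / 10 ^ 4) (b := 9900 / 10 ^ 4)
    (by norm_num) (by norm_num) (by norm_num) (by norm_num) h (by norm_num) (by norm_num)
    (by norm_num) (by norm_num) ?_ ?_ ?_ ?_ ?_ ?_ <;> norm_num

theorem out : ∃ R s s₂ : ℝ, ChainOut 14 R s s₂ ∧ NumOut 14 R s s₂ := ⟨_, _, _, chain, num⟩

end Pool.Agent.Saus.N14
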