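import Pool.Agent.Lib.MP_5a9905_co.ChainCheck
import Pool.Agent.Lib.MP_5a9905_co.NumOf

/-! Certificate for dimension `d = 17` (`n = 15`), generated by a script. -/

set_option autoImplicit false
set_option linter.style.longLine false

namespace Pool.Agent.Saus.N15

def ys : List ℕ := [0, 2, 12, 20, 28, 36, 44, 52, 70, 90]

def cs : List Cls :=
  [⟨110, 169, 32, [10000, 5471, 3433, 2559, 1946, 1493, 1150, 887, 493]⟩,
   ⟨130, 152, 32, [10000, 5856, 3927, 3064, 2437, 1957, 1580, 1279, 797]⟩,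
   ⟨160, 134, 32, [10000, 6284, 4498, 3667, 3043, 2549, 2148, 1816, 1254]⟩,
   ⟨200, 118, 32, [10000, 6683, 5047, 4262, 3658, 3167, 2758, 2411, 1797]⟩]

def S : List Step :=
  [Step.gs 158 [] 610158900000000000000000000000000000000,
   Step.ts 0 72 7 [],
   Step.gs 164 [(110, 71)] 444220360000000000000000000000000000000,
   Step.ts 0 17 7 [(110, 71)],
   Step.ts 1 282 7 [(110, 16)],
   Step.gs 172 [(110, 16), (130, 281)] 272467260000000000000000000000000000000,
   Step.ts 0 10 8 [(110, 16), (130, 281)],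
   Step.ts 1 18 8 [(110, 9), (130, 281)],
   Step.ts 2 70 8 [(110, 9), (130, 17)],
   Step.ts 3 45 8 [(110, 9), (130, 17), (160, 69)],
   Step.ts 0 4 9 [(110, 9), (130, 17), (200, 44)],
   Step.ts 1 5 9 [(110, 3), (130, 17), (200, 44)],
   Step.ts 2 5 9 [(110, 3), (130, 4), (200, 44)]]

theorem ysOK_ : ysOK 9 ys = true := by decide +kernel

theorem tabOK_ : tabOK 7 9 ys cs = true := by decide +kernel

theorem runOK_ :
    run 15 ys cs 9 (finOK 15 196 1293 1877 [(110, 3), (160, 4), (200, 44)] [(110, 3), (160, 4), (200, 44)]) S [] (2 * uU) = true := by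
  decide +kernel

theorem chain : ChainOut 15 (((196 : ℕ) : ℝ) / 100) (((1293 : ℕ) : ℝ) / 10 ^ 4) (((1877 : ℕ) : ℝ) / 10 ^ 4) :=
  chain_sound (by norm_num) ysOK_ (tab_of_check (by norm_num) tabOK_ (by norm_num)) runOK_

theorem num : NumOut 15 (((196 : ℕ) : ℝ) / 100) (((1293 : ℕ) : ℝ) / 10 ^ 4) (((1877 : ℕ) : ℝ) / 10 ^ 4) := by
  have hr : rL 16 = 5990767400 := by decide +kernel
  have h := rL_le 16
  rw [hr] at h
  refine numOut_of (ρ := ((5990767400 : ℕ) : ℝ) / 10 ^ 10) (a := 9797 / 10 ^ 4) (b := 9798 / 10 ^ 4)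
    (by norm_num) (by norm_num) (by norm_num) (by norm_num) h (by norm_num) (by norm_num)
    (by norm_num) (by norm_num) ?_ ?_ ?_ ?_ ?_ ?_ <;> norm_num

theorem out : ∃ R s s₂ : ℝ, ChainOut 15 R s s₂ ∧ NumOut 15 R s s₂ := ⟨_, _, _, chain, num⟩

end Pool.Agent.Saus.N15
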