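import Pool.Agent.Lib.MP_5a9905_co.ChainCheck
import Pool.Agent.Lib.MP_5a9905_co.NumOf

/-! Certificate for dimension `d = 18` (`n = 16`), generated by a script. -/

set_option autoImplicit false
set_option linter.style.longLine false

namespace Pool.Agent.Saus.N16

def ys : List ℕ := [0, 12, 20, 28, 36, 44, 52, 60, 80, 90]

def cs : List Cls :=
  [⟨120, 160, 32, [10000, 3493, 2600, 1975, 1515, 1168, 902, 697, 363]⟩,
   ⟨150, 139, 32, [10000, 4146, 3273, 2634, 2140, 1750, 1436, 1180, 725]⟩,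
   ⟨200, 118, 32, [10000, 4873, 4052, 3426, 2925, 2512, 2166, 1873, 1312]⟩]

def S : List Step :=
  [Step.gs 160 [] 459348150000000000000000000000000000000,
   Step.ts 0 148 6 [],
   Step.ts 1 234 7 [(120, 147)],
   Step.gs 178 [(120, 147), (150, 233)] 162811460000000000000000000000000000000,
   Step.ts 0 10 7 [(120, 147), (150, 233)],
   Step.ts 1 12 8 [(120, 9), (150, 233)],
   Step.ts 2 59 8 [(120, 9), (150, 11)],
   Step.ts 0 4 9 [(120, 9), (150, 11), (200, 58)]]

theorem ysOK_ : ysOK 9 ys = true := by decide +kernel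

theorem tabOK_ : tabOK 8 9 ys cs = true := by decide +kernel

theorem runOK_ :
    run 16 ys cs 9 (finOK 16 196 1368 2069 [(120, 3), (150, 11), (200, 58)] [(120, 3), (150, 11), (200, 58)]) S [] (2 * uU) = true := by
  decide +kernel

theorem chain : ChainOut 16 (((196 : ℕ) : ℝ) / 100) (((1368 : ℕ) : ℝ) / 10 ^ 4) (((2069 : ℕ) : ℝ) / 10 ^ 4) :=
  chain_sound (by norm_num) ysOK_ (tab_of_check (by norm_num) tabOK_ (by norm_num)) runOK_

theorem num : NumOut 16 (((196 : ℕ) : ℝ) / 100) (((1368 : ℕ) : ℝ) / 10 ^ 4) (((2069 : ℕ) : ℝ) / 10 ^ 4) := by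
  have hr : rL 17 = 5826728935 := by decide +kernel
  have h := rL_le 17
  rw [hr] at h
  refine numOut_of (ρ := ((5826728935 : ℕ) : ℝ) / 10 ^ 10) (a := 9797 / 10 ^ 4) (b := 9798 / 10 ^ 4)
    (by norm_num) (by norm_num) (by norm_num) (by norm_num) h (by norm_num) (by norm_num)
    (by norm_num) (by norm_num) ?_ ?_ ?_ ?_ ?_ ?_ <;> norm_num

theorem out : ∃ R s s₂ : ℝ, ChainOut 16 R s s₂ ∧ NumOut 16 R s s₂ := ⟨_, _, _, chain, num⟩

end Pool.Agent.Saus.N16
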