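import Pool.Agent.Lib.MP_5a9905_co.ChainCheck
import Pool.Agent.Lib.MP_5a9905_co.NumOf

/-! Certificate for dimension `d = 19` (`n = 17`), generated by a script. -/

set_option autoImplicit false
set_option linter.style.longLine false

namespace Pool.Agent.Saus.N17

def ys : List ℕ := [0, 2, 12, 20, 28, 36, 44, 52, 60, 70, 90]

def cs : List Cls :=
  [⟨130, 152, 32, [10000, 5768, 3733, 2844, 2210, 1735, 1370, 1084, 859, 641]⟩,
   ⟨200, 118, 32, [10000, 6611, 4873, 4052, 3426, 2925, 2512, 2166, 1873, 1566]⟩]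

def S : List Step :=
  [Step.gs 160 [] 345573000000000000000000000000000000000,
   Step.ts 0 492 7 [],
   Step.ts 0 13 8 [(130, 491)],
   Step.gs 174 [(130, 12)] 132021550000000000000000000000000000000,
   Step.ts 0 8 9 [(130, 12)],
   Step.ts 1 167 9 [(130, 7)],
   Step.ts 0 4 10 [(130, 7), (200, 166)],
   Step.ts 1 6 10 [(130, 3), (200, 166)]]

theorem ysOK_ : ysOK 10 ys = true := by decide +kernel

theorem tabOK_ : tabOK 8 10 ys cs = true := by decide +kernel

theorem runOK_ :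
    run 17 ys cs 10 (finOK 17 198 1245 1525 [(130, 3), (200, 5)] [(130, 3), (200, 5)]) S [] (2 * uU) = true := by
  decide +kernel

theorem chain : ChainOut 17 (((198 : ℕ) : ℝ) / 100) (((1245 : ℕ) : ℝ) / 10 ^ 4) (((1525 : ℕ) : ℝ) / 10 ^ 4) :=
  chain_sound (by norm_num) ysOK_ (tab_of_check (by norm_num) tabOK_ (by norm_num)) runOK_

theorem num : NumOut 17 (((198 : ℕ) : ℝ) / 100) (((1245 : ℕ) : ℝ) / 10 ^ 4) (((1525 : ℕ) : ℝ) / 10 ^ 4) := by
  have hr : rL 18 = 5675463852 := by decide +kernel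
  have h := rL_le 18
  rw [hr] at h
  refine numOut_of (ρ := ((5675463852 : ℕ) : ℝ) / 10 ^ 10) (a := 9899 / 10 ^ 4) (b := 9900 / 10 ^ 4)
    (by norm_num) (by norm_num) (by norm_num) (by norm_num) h (by norm_num) (by norm_num)
    (by norm_num) (by norm_num) ?_ ?_ ?_ ?_ ?_ ?_ <;> norm_num

theorem out : ∃ R s s₂ : ℝ, ChainOut 17 R s s₂ ∧ NumOut 17 R s s₂ := ⟨_, _, _, chain, num⟩

end Pool.Agent.Saus.N17
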