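import Pool.Agent.Lib.MP_5a9905_co.ChainCheck
import Pool.Agent.Lib.MP_5a9905_co.NumOf

/-! Certificate for dimension `d = 20` (`n = 18`), generated by a script. -/

set_option autoImplicit false
set_option linter.style.longLine false

namespace Pool.Agent.Saus.N18

def ys : List ℕ := [0, 20, 36, 44, 52, 70, 90]

def cs : List Cls :=
  [⟨120, 160, 32, [10000, 2403, 1332, 1002, 755, 398]⟩,
   ⟨150, 139, 32, [10000, 3073, 1935, 1552, 1250, 772]⟩,
   ⟨200, 118, 32, [10000, 3857, 2707, 2294, 1951, 1369]⟩]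

def S : List Step :=
  [Step.gs 162 [] 258635990000000000000000000000000000000,
   Step.ts 0 89 4 [],
   Step.gs 170 [(120, 88)] 134487210000000000000000000000000000000,
   Step.ts 0 17 5 [(120, 88)],
   Step.ts 1 122 5 [(120, 16)],
   Step.ts 2 42 5 [(120, 16), (150, 121)],
   Step.ts 0 5 6 [(120, 16), (200, 41)]]

theorem ysOK_ : ysOK 6 ys = true := by decide +kernel

theorem tabOK_ : tabOK 9 6 ys cs = true := by decide +kernel

theorem runOK_ :
    run 18 ys cs 6 (finOK 18 190 1011 3450 [(120, 4), (200, 41)] [(120, 4), (200, 41)]) S [] (2 * uU) = true := by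
  decide +kernel

theorem chain : ChainOut 18 (((190 : ℕ) : ℝ) / 100) (((1011 : ℕ) : ℝ) / 10 ^ 4) (((3450 : ℕ) : ℝ) / 10 ^ 4) :=
  chain_sound (by norm_num) ysOK_ (tab_of_check (by norm_num) tabOK_ (by norm_num)) runOK_

theorem num : NumOut 18 (((190 : ℕ) : ℝ) / 100) (((1011 : ℕ) : ℝ) / 10 ^ 4) (((3450 : ℕ) : ℝ) / 10 ^ 4) := by
  have hr : rL 19 = 5535392488 := by decide +kernel
  have h := rL_le 19
  rw [hr] at h
  refine numOut_of (ρ := ((5535392488 : ℕ) : ℝ) / 10 ^ 10) (a := 9486 / 10 ^ 4) (b := 9487 / 10 ^ 4)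
    (by norm_num) (by norm_num) (by norm_num) (by norm_num) h (by norm_num) (by norm_num)
    (by norm_num) (by norm_num) ?_ ?_ ?_ ?_ ?_ ?_ <;> norm_num

theorem out : ∃ R s s₂ : ℝ, ChainOut 18 R s s₂ ∧ NumOut 18 R s s₂ := ⟨_, _, _, chain, num⟩

end Pool.Agent.Saus.N18
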