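import Pool.Agent.Lib.MP_5a9905_co.ChainCheck
import Pool.Agent.Lib.MP_5a9905_co.NumOf

/-! Certificate for dimension `d = 21` (`n = 19`), generated by a script. -/

set_option autoImplicit false
set_option linter.style.longLine false

namespace Pool.Agent.Saus.N19

def ys : List ℕ := [0, 20, 28, 36, 44, 52, 70, 90]

def cs : List Cls :=
  [⟨130, 152, 32, [10000, 2645, 2010, 1543, 1191, 922, 518]⟩,
   ⟨200, 118, 32, [10000, 3857, 3215, 2707, 2294, 1951, 1369]⟩]

def S : List Step :=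
  [Step.gs 162 [] 193400680000000000000000000000000000000,
   Step.ts 0 521 5 [],
   Step.gs 172 [(130, 520)] 99622503000000000000000000000000000000,
   Step.ts 0 20 6 [(130, 520)],
   Step.gs 176 [(130, 19)] 70427089000000000000000000000000000000,
   Step.ts 0 8 6 [(130, 19)],
   Step.ts 1 582 6 [(130, 7)],
   Step.ts 0 5 7 [(130, 7), (200, 581)],
   Step.ts 1 8 7 [(130, 4), (200, 581)]]

theorem ysOK_ : ysOK 7 ys = true := by decide +kernel

theorem tabOK_ : tabOK 9 7 ys cs = true := by decide +kernel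

theorem runOK_ :
    run 19 ys cs 7 (finOK 19 196 1173 1842 [(130, 4), (200, 7)] [(130, 4), (200, 7)]) S [] (2 * uU) = true := by
  decide +kernel

theorem chain : ChainOut 19 (((196 : ℕ) : ℝ) / 100) (((1173 : ℕ) : ℝ) / 10 ^ 4) (((1842 : ℕ) : ℝ) / 10 ^ 4) :=
  chain_sound (by norm_num) ysOK_ (tab_of_check (by norm_num) tabOK_ (by norm_num)) runOK_

theorem num : NumOut 19 (((196 : ℕ) : ℝ) / 100) (((1173 : ℕ) : ℝ) / 10 ^ 4) (((1842 : ℕ) : ℝ) / 10 ^ 4) := by
  have hr : rL 20 = 5405203668 := by decide +kernel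
  have h := rL_le 20
  rw [hr] at h
  refine numOut_of (ρ := ((5405203668 : ℕ) : ℝ) / 10 ^ 10) (a := 9797 / 10 ^ 4) (b := 9798 / 10 ^ 4)
    (by norm_num) (by norm_num) (by norm_num) (by norm_num) h (by norm_num) (by norm_num)
    (by norm_num) (by norm_num) ?_ ?_ ?_ ?_ ?_ ?_ <;> norm_num

theorem out : ∃ R s s₂ : ℝ, ChainOut 19 R s s₂ ∧ NumOut 19 R s s₂ := ⟨_, _, _, chain, num⟩

end Pool.Agent.Saus.N19
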