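import Pool.Agent.Lib.MP_5a9905_co.ChainCheck
import Pool.Agent.Lib.MP_5a9905_co.NumOf

/-! Certificate for dimension `d = 22` (`n = 20`), generated by a script. -/

set_option autoImplicit false
set_option linter.style.longLine false

namespace Pool.Agent.Saus.N20

def ys : List ℕ := [0, 28, 44, 52, 60, 70]

def cs : List Cls :=
  [⟨130, 152, 32, [10000, 1831, 1038, 786, 595]⟩,
   ⟨200, 118, 32, [10000, 3022, 2098, 1761, 1483]⟩]

def S : List Step :=
  [Step.gs 164 [] 144429130000000000000000000000000000000,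
   Step.ts 0 2632 4 [],
   Step.ts 0 39 4 [(130, 2631)],
   Step.gs 176 [(130, 38)] 52290490000000000000000000000000000000,
   Step.ts 0 9 5 [(130, 38)],
   Step.ts 1 107 5 [(130, 8)]]

theorem ysOK_ : ysOK 5 ys = true := by decide +kernel

theorem tabOK_ : tabOK 10 5 ys cs = true := by decide +kernel

theorem runOK_ :
    run 20 ys cs 5 (finOK 20 190 1141 4097 [(130, 8), (200, 106)] [(130, 8), (200, 106)]) S [] (2 * uU) = true := by
  decide +kernel

theorem chain : ChainOut 20 (((190 : ℕ) : ℝ) / 100) (((1141 : ℕ) : ℝ) / 10 ^ 4) (((4097 : ℕ) : ℝ) / 10 ^ 4) :=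
  chain_sound (by norm_num) ysOK_ (tab_of_check (by norm_num) tabOK_ (by norm_num)) runOK_

theorem num : NumOut 20 (((190 : ℕ) : ℝ) / 100) (((1141 : ℕ) : ℝ) / 10 ^ 4) (((4097 : ℕ) : ℝ) / 10 ^ 4) := by
  have hr : rL 21 = 5283783738 := by decide +kernel
  have h := rL_le 21
  rw [hr] at h
  refine numOut_of (ρ := ((5283783738 : ℕ) : ℝ) / 10 ^ 10) (a := 9486 / 10 ^ 4) (b := 9487 / 10 ^ 4)
    (by norm_num) (by norm_num) (by norm_num) (by norm_num) h (by norm_num) (by norm_num)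
    (by norm_num) (by norm_num) ?_ ?_ ?_ ?_ ?_ ?_ <;> norm_num

theorem out : ∃ R s s₂ : ℝ, ChainOut 20 R s s₂ ∧ NumOut 20 R s s₂ := ⟨_, _, _, chain, num⟩

end Pool.Agent.Saus.N20
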