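import Pool.Agent.Lib.MP_5a9905_co.ChainCheck
import Pool.Agent.Lib.MP_5a9905_co.NumOf

/-! Certificate for dimension `d = 25` (`n = 23`), generated by a script. -/

set_option autoImplicit false
set_option linter.style.longLine false

namespace Pool.Agent.Saus.N23

def ys : List ℕ := [0, 36, 52, 60, 70]

def cs : List Cls :=
  [⟨130, 152, 32, [10000, 1227, 671, 497]⟩,
   ⟨200, 118, 32, [10000, 2331, 1593, 1324]⟩]

def S : List Step :=
  [Step.gs 166 [] 59105292000000000000000000000000000000,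
   Step.ts 0 102 3 [],
   Step.gs 178 [(130, 101)] 20803305000000000000000000000000000000,
   Step.ts 0 10 4 [(130, 101)],
   Step.ts 1 113 4 [(130, 9)]]

theorem ysOK_ : ysOK 4 ys = true := by decide +kernel

theorem tabOK_ : tabOK 11 4 ys cs = true := by decide +kernel

theorem runOK_ :
    run 23 ys cs 4 (finOK 23 190 926 3799 [(130, 9), (200, 112)] [(130, 9), (200, 112)]) S [] (2 * uU) = true := by
  decide +kernel

theorem chain : ChainOut 23 (((190 : ℕ) : ℝ) / 100) (((926 : ℕ) : ℝ) / 10 ^ 4) (((3799 : ℕ) : ℝ) / 10 ^ 4) :=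
  chain_sound (by norm_num) ysOK_ (tab_of_check (by norm_num) tabOK_ (by norm_num)) runOK_

theorem num : NumOut 23 (((190 : ℕ) : ℝ) / 100) (((926 : ℕ) : ℝ) / 10 ^ 4) (((3799 : ℕ) : ℝ) / 10 ^ 4) := by
  have hr : rL 24 = 4963387019 := by decide +kernel
  have h := rL_le 24
  rw [hr] at h
  refine numOut_of (ρ := ((4963387019 : ℕ) : ℝ) / 10 ^ 10) (a := 9486 / 10 ^ 4) (b := 9487 / 10 ^ 4)
    (by norm_num) (by norm_num) (by norm_num) (by norm_num) h (by norm_num) (by norm_num)
    (by norm_num) (by norm_num) ?_ ?_ ?_ ?_ ?_ ?_ <;> norm_num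

theorem out : ∃ R s s₂ : ℝ, ChainOut 23 R s s₂ ∧ NumOut 23 R s s₂ := ⟨_, _, _, chain, num⟩

end Pool.Agent.Saus.N23
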