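import Pool.Agent.Lib.MP_5a9905_co.ChainCheck
import Pool.Agent.Lib.MP_5a9905_co.NumOf

/-! Certificate for dimension `d = 26` (`n = 24`), generated by a script. -/

set_option autoImplicit false
set_option linter.style.longLine false

namespace Pool.Agent.Saus.N24

def ys : List ℕ := [0, 44, 52, 60, 70]

def cs : List Cls :=
  [⟨130, 152, 32, [10000, 793, 575, 416]⟩,
   ⟨200, 118, 32, [10000, 1764, 1443, 1183]⟩]

def S : List Step :=
  [Step.gs 166 [] 43722672000000000000000000000000000000,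
   Step.ts 0 126 3 [],
   Step.gs 178 [(130, 125)] 15243587000000000000000000000000000000,
   Step.ts 0 12 4 [(130, 125)],
   Step.ts 1 244 4 [(130, 11)]]

theorem ysOK_ : ysOK 4 ys = true := by decide +kernel

theorem tabOK_ : tabOK 12 4 ys cs = true := by decide +kernel

theorem runOK_ :
    run 24 ys cs 4 (finOK 24 190 1059 4685 [(130, 11), (200, 243)] [(130, 11), (200, 243)]) S [] (2 * uU) = true := by
  decide +kernel

theorem chain : ChainOut 24 (((190 : ℕ) : ℝ) / 100) (((1059 : ℕ) : ℝ) / 10 ^ 4) (((4685 : ℕ) : ℝ) / 10 ^ 4) :=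
  chain_sound (by norm_num) ysOK_ (tab_of_check (by norm_num) tabOK_ (by norm_num)) runOK_

theorem num : NumOut 24 (((190 : ℕ) : ℝ) / 100) (((1059 : ℕ) : ℝ) / 10 ^ 4) (((4685 : ℕ) : ℝ) / 10 ^ 4) := by
  have hr : rL 25 = 4868871232 := by decide +kernel
  have h := rL_le 25
  rw [hr] at h
  refine numOut_of (ρ := ((4868871232 : ℕ) : ℝ) / 10 ^ 10) (a := 9486 / 10 ^ 4) (b := 9487 / 10 ^ 4)
    (by norm_num) (by norm_num) (by norm_num) (by norm_num) h (by norm_num) (by norm_num)
    (by norm_num) (by norm_num) ?_ ?_ ?_ ?_ ?_ ?_ <;> norm_num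

theorem out : ∃ R s s₂ : ℝ, ChainOut 24 R s s₂ ∧ NumOut 24 R s s₂ := ⟨_, _, _, chain, num⟩

end Pool.Agent.Saus.N24
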