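import Pool.Agent.Lib.MP_5a9905_co.ChainCheck
import Pool.Agent.Lib.MP_5a9905_co.NumOf

/-! Certificate for dimension `d = 27` (`n = 25`), generated by a script. -/

set_option autoImplicit false
set_option linter.style.longLine false

namespace Pool.Agent.Saus.N25

def ys : List ℕ := [0, 6, 12, 20, 28, 36, 44, 52, 60, 90]

def cs : List Cls :=
  [⟨200, 118, 32, [10000, 5294, 4280, 3353, 2680, 2167, 1764, 1443, 1183]⟩]

def S : List Step :=
  [Step.gs 166 [] 32498690000000000000000000000000000000,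
   Step.ts 0 493 8 [],
   Step.ts 0 18 8 [(200, 492)],
   Step.ts 0 5 9 [(200, 17)]]

theorem ysOK_ : ysOK 9 ys = true := by decide +kernel

theorem tabOK_ : tabOK 12 9 ys cs = true := by decide +kernel

theorem runOK_ :
    run 25 ys cs 9 (finOK 25 198 1077 1429 [(200, 4)] [(200, 4)]) S [] (2 * uU) = true := by
  decide +kernel

theorem chain : ChainOut 25 (((198 : ℕ) : ℝ) / 100) (((1077 : ℕ) : ℝ) / 10 ^ 4) (((1429 : ℕ) : ℝ) / 10 ^ 4) :=
  chain_sound (by norm_num) ysOK_ (tab_of_check (by norm_num) tabOK_ (by norm_num)) runOK_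

theorem num : NumOut 25 (((198 : ℕ) : ℝ) / 100) (((1077 : ℕ) : ℝ) / 10 ^ 4) (((1429 : ℕ) : ℝ) / 10 ^ 4) := by
  have hr : rL 26 = 4779557870 := by decide +kernel
  have h := rL_le 26
  rw [hr] at h
  refine numOut_of (ρ := ((4779557870 : ℕ) : ℝ) / 10 ^ 10) (a := 9899 / 10 ^ 4) (b := 9900 / 10 ^ 4)
    (by norm_num) (by norm_num) (by norm_num) (by norm_num) h (by norm_num) (by norm_num)
    (by norm_num) (by norm_num) ?_ ?_ ?_ ?_ ?_ ?_ <;> norm_num

theorem out : ∃ R s s₂ : ℝ, ChainOut 25 R s s₂ ∧ NumOut 25 R s s₂ := ⟨_, _, _, chain, num⟩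

end Pool.Agent.Saus.N25
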