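import Pool.Agent.Lib.MP_5a9905_co.ChainCheck
import Pool.Agent.Lib.MP_5a9905_co.NumOf

/-! Certificate for dimension `d = 28` (`n = 26`), generated by a script. -/

set_option autoImplicit false
set_option linter.style.longLine false

namespace Pool.Agent.Saus.N26

def ys : List ℕ := [0, 12, 28, 36, 44, 52, 60, 90]

def cs : List Cls :=
  [⟨200, 118, 32, [10000, 4152, 2528, 2017, 1621, 1308, 1059]⟩]

def S : List Step :=
  [Step.gs 168 [] 23873647000000000000000000000000000000,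
   Step.ts 0 126 6 [],
   Step.ts 0 15 7 [(200, 125)]]

theorem ysOK_ : ysOK 7 ys = true := by decide +kernel

theorem tabOK_ : tabOK 13 7 ys cs = true := by decide +kernel

theorem runOK_ :
    run 26 ys cs 7 (finOK 26 190 1048 4828 [(200, 14)] [(200, 14)]) S [] (2 * uU) = true := by
  decide +kernel

theorem chain : ChainOut 26 (((190 : ℕ) : ℝ) / 100) (((1048 : ℕ) : ℝ) / 10 ^ 4) (((4828 : ℕ) : ℝ) / 10 ^ 4) :=
  chain_sound (by norm_num) ysOK_ (tab_of_check (by norm_num) tabOK_ (by norm_num)) runOK_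

theorem num : NumOut 26 (((190 : ℕ) : ℝ) / 100) (((1048 : ℕ) : ℝ) / 10 ^ 4) (((4828 : ℕ) : ℝ) / 10 ^ 4) := by
  have hr : rL 27 = 4694982973 := by decide +kernel
  have h := rL_le 27
  rw [hr] at h
  refine numOut_of (ρ := ((4694982973 : ℕ) : ℝ) / 10 ^ 10) (a := 9486 / 10 ^ 4) (b := 9487 / 10 ^ 4)
    (by norm_num) (by norm_num) (by norm_num) (by norm_num) h (by norm_num) (by norm_num)
    (by norm_num) (by norm_num) ?_ ?_ ?_ ?_ ?_ ?_ <;> norm_num

theorem out : ∃ R s s₂ : ℝ, ChainOut 26 R s s₂ ∧ NumOut 26 R s s₂ := ⟨_, _, _, chain, num⟩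

end Pool.Agent.Saus.N26
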