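import Pool.Agent.Lib.MP_5a9905_co.ChainCheck
import Pool.Agent.Lib.MP_5a9905_co.NumOf

/-! Certificate for dimension `d = 29` (`n = 27`), generated by a script. -/

set_option autoImplicit false
set_option linter.style.longLine false

namespace Pool.Agent.Saus.N27

def ys : List ℕ := [0, 20, 28, 36, 44, 52, 60, 90]

def cs : List Cls :=
  [⟨200, 118, 32, [10000, 3206, 2528, 2017, 1621, 1308, 1059]⟩]

def S : List Step :=
  [Step.gs 168 [] 17565599000000000000000000000000000000,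
   Step.ts 0 324 6 [],
   Step.ts 0 28 6 [(200, 323)],
   Step.ts 0 6 7 [(200, 27)]]

theorem ysOK_ : ysOK 7 ys = true := by decide +kernel

theorem tabOK_ : tabOK 13 7 ys cs = true := by decide +kernel

theorem runOK_ :
    run 27 ys cs 7 (finOK 27 196 904 1667 [(200, 5)] [(200, 5)]) S [] (2 * uU) = true := by
  decide +kernel

theorem chain : ChainOut 27 (((196 : ℕ) : ℝ) / 100) (((904 : ℕ) : ℝ) / 10 ^ 4) (((1667 : ℕ) : ℝ) / 10 ^ 4) :=
  chain_sound (by norm_num) ysOK_ (tab_of_check (by norm_num) tabOK_ (by norm_num)) runOK_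

theorem num : NumOut 27 (((196 : ℕ) : ℝ) / 100) (((904 : ℕ) : ℝ) / 10 ^ 4) (((1667 : ℕ) : ℝ) / 10 ^ 4) := by
  have hr : rL 28 = 4614745529 := by decide +kernel
  have h := rL_le 28
  rw [hr] at h
  refine numOut_of (ρ := ((4614745529 : ℕ) : ℝ) / 10 ^ 10) (a := 9797 / 10 ^ 4) (b := 9798 / 10 ^ 4)
    (by norm_num) (by norm_num) (by norm_num) (by norm_num) h (by norm_num) (by norm_num)
    (by norm_num) (by norm_num) ?_ ?_ ?_ ?_ ?_ ?_ <;> norm_num

theorem out : ∃ R s s₂ : ℝ, ChainOut 27 R s s₂ ∧ NumOut 27 R s s₂ := ⟨_, _, _, chain, num⟩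

end Pool.Agent.Saus.N27
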