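import Pool.Agent.Lib.MP_5a9905_co.ChainCheck
import Pool.Agent.Lib.MP_5a9905_co.NumOf

/-! Certificate for dimension `d = 34` (`n = 32`), generated by a script. -/

set_option autoImplicit false
set_option linter.style.longLine false

namespace Pool.Agent.Saus.N32

def ys : List ℕ := [0, 36, 44, 52, 60, 90]

def cs : List Cls :=
  [⟨200, 118, 32, [10000, 1636, 1265, 982, 765]⟩]

def S : List Step :=
  [Step.gs 170 [] 3772975400000000000000000000000000000,
   Step.ts 0 129 4 [],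
   Step.ts 0 10 5 [(200, 128)]]

theorem ysOK_ : ysOK 5 ys = true := by decide +kernel

theorem tabOK_ : tabOK 16 5 ys cs = true := by decide +kernel

theorem runOK_ :
    run 32 ys cs 5 (finOK 32 194 871 2572 [(200, 9)] [(200, 9)]) S [] (2 * uU) = true := by
  decide +kernel

theorem chain : ChainOut 32 (((194 : ℕ) : ℝ) / 100) (((871 : ℕ) : ℝ) / 10 ^ 4) (((2572 : ℕ) : ℝ) / 10 ^ 4) :=
  chain_sound (by norm_num) ysOK_ (tab_of_check (by norm_num) tabOK_ (by norm_num)) runOK_

theorem num : NumOut 32 (((194 : ℕ) : ℝ) / 100) (((871 : ℕ) : ℝ) / 10 ^ 4) (((2572 : ℕ) : ℝ) / 10 ^ 4) := by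
  have hr : rL 33 = 4267342519 := by decide +kernel
  have h := rL_le 33
  rw [hr] at h
  refine numOut_of (ρ := ((4267342519 : ℕ) : ℝ) / 10 ^ 10) (a := 9695 / 10 ^ 4) (b := 9696 / 10 ^ 4)
    (by norm_num) (by norm_num) (by norm_num) (by norm_num) h (by norm_num) (by norm_num)
    (by norm_num) (by norm_num) ?_ ?_ ?_ ?_ ?_ ?_ <;> norm_num

theorem out : ∃ R s s₂ : ℝ, ChainOut 32 R s s₂ ∧ NumOut 32 R s s₂ := ⟨_, _, _, chain, num⟩

end Pool.Agent.Saus.N32
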