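import Pool.Agent.Lib.MP_5a9905_co.ChainCheck
import Pool.Agent.Lib.MP_5a9905_co.NumOf

/-! Certificate for dimension `d = 43` (`n = 41`), generated by a script. -/

set_option autoImplicit false
set_option linter.style.longLine false

namespace Pool.Agent.Saus.N41

def ys : List ℕ := [0, 52, 70, 90]

def cs : List Cls :=
  [⟨200, 118, 32, [10000, 678, 346]⟩]

def S : List Step :=
  [Step.gs 174 [] 220182940000000000000000000000000000,
   Step.ts 0 107 2 [],
   Step.ts 0 9 3 [(200, 106)]]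

theorem ysOK_ : ysOK 3 ys = true := by decide +kernel

theorem tabOK_ : tabOK 20 3 ys cs = true := by decide +kernel

theorem runOK_ :
    run 41 ys cs 3 (finOK 41 196 741 1819 [(200, 8)] [(200, 8)]) S [] (2 * uU) = true := by
  decide +kernel

theorem chain : ChainOut 41 (((196 : ℕ) : ℝ) / 100) (((741 : ℕ) : ℝ) / 10 ^ 4) (((1819 : ℕ) : ℝ) / 10 ^ 4) :=
  chain_sound (by norm_num) ysOK_ (tab_of_check (by norm_num) tabOK_ (by norm_num)) runOK_

theorem num : NumOut 41 (((196 : ℕ) : ℝ) / 100) (((741 : ℕ) : ℝ) / 10 ^ 4) (((1819 : ℕ) : ℝ) / 10 ^ 4) := by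
  have hr : rL 42 = 3800414489 := by decide +kernel
  have h := rL_le 42
  rw [hr] at h
  refine numOut_of (ρ := ((3800414489 : ℕ) : ℝ) / 10 ^ 10) (a := 9797 / 10 ^ 4) (b := 9798 / 10 ^ 4)
    (by norm_num) (by norm_num) (by norm_num) (by norm_num) h (by norm_num) (by norm_num)
    (by norm_num) (by norm_num) ?_ ?_ ?_ ?_ ?_ ?_ <;> norm_num

theorem out : ∃ R s s₂ : ℝ, ChainOut 41 R s s₂ ∧ NumOut 41 R s s₂ := ⟨_, _, _, chain, num⟩

end Pool.Agent.Saus.N41
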